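import Mathlib

namespace Pool.Agent.Helper74.SB

open Finset

/-- The pattern of `S` in the `i`-th aligned block of length `L`. -/
def block (S : Set ℕ) (L i : ℕ) : Set ℕ := {x | x < L ∧ i * L + x ∈ S}

/-- The nonempty blocks of length `L` with index below `N`. -/
noncomputable def ne (S : Set ℕ) (L N : ℕ) : Finset ℕ := by
  classical
  exact (range N).filter fun i => (block S L i).Nonempty

theorem mem_ne {S : Set ℕ} {L N i : ℕ} : i ∈ ne S L N ↔ i < N ∧ (block S L i).Nonempty := by
  classical
  simp [ne]

/-- The indices `u < R` for which the block with index `I * R + u` has the pattern `p` form a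
3-AP-free set if `p` is not empty. -/
theorem roth_bound {S : Set ℕ} (hS : ThreeAPFree S) {L R I : ℕ} {p : Set ℕ}
    (hp : p.Nonempty) (T : Finset ℕ) (hT : ∀ u ∈ T, u < R ∧ block S L (I * R + u) = p) :
    T.card ≤ rothNumberNat R := by
  obtain ⟨x, hx⟩ := hp
  refine ThreeAPFree.le_rothNumberNat T ?_ (fun u hu => (hT u hu).1) rfl
  intro u hu v hv w hw huvw
  have key : ∀ u ∈ T, (I * R + u) * L + x ∈ S := by
    intro u hu
    have : x ∈ block S L (I * R + u) := by rw [(hT u hu).2]; exact hx
    exact this.2
  have h := hS (key u hu) (key v hv) (key w hw) (by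
    have : u + w = v + v := huvw
    calc (I * R + u) * L + x + ((I * R + w) * L + x) = (2 * (I * R) + (u + w)) * L + 2 * x := by
          ring
      _ = (I * R + v) * L + x + ((I * R + v) * L + x) := by rw [this]; ring)
  by_cases hL : L = 0
  · exfalso
    have hxL : x ∈ block S L (I * R + u) := by rw [(hT u hu).2]; exact hx
    have := hxL.1
    omega
  · have h1 : (I * R + u) * L = (I * R + v) * L := by omega
    have h2 := Nat.eq_of_mul_eq_mul_right (Nat.pos_of_ne_zero hL) h1
    omega

/-- One step: passing from blocks of length `L * R` to blocks of length `L`. -/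
theorem step {S : Set ℕ} (hS : ThreeAPFree S) {L R m : ℕ} (hR : 0 < R)
    (F : Finset (Set ℕ)) (hF : F.card ≤ m) (hblock : ∀ i, block S L i ∈ F)
    (hroth : 2 * (m * rothNumberNat R) ≤ R) (N : ℕ) :
    2 * (ne S L (N * R)).card ≤ (ne S (L * R) N).card * R := by
  classical
  have hmap : ∀ i ∈ ne S L (N * R), i / R ∈ ne S (L * R) N := by
    intro i hi
    obtain ⟨hiN, x, hx⟩ := mem_ne.mp hi
    rw [mem_ne]
    refine ⟨(Nat.div_lt_iff_lt_mul hR).mpr hiN, (i % R) * L + x, ?_, ?_⟩
    · have h1 : i % R < R := Nat.mod_lt i hR
      have h2 : (i % R + 1) * L ≤ R * L := Nat.mul_le_mul_right L h1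
      have h3 := hx.1
      calc i % R * L + x < (i % R + 1) * L := by rw [add_mul, one_mul]; omega
        _ ≤ R * L := h2
        _ = L * R := mul_comm _ _
    · have h4 : i / R * (L * R) + (i % R * L + x) = i * L + x := by
        have := Nat.div_add_mod i R
        calc i / R * (L * R) + (i % R * L + x) = (R * (i / R) + i % R) * L + x := by ring
          _ = i * L + x := by rw [this]
      rw [h4]
      exact hx.2
  have hfib : ∀ I ∈ ne S (L * R) N,
      ((ne S L (N * R)).filter fun i => i / R = I).card ≤ m * rothNumberNat R := by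
    intro I _
    have hcover : ((ne S L (N * R)).filter fun i => i / R = I) ⊆
        (F.filter fun p => p.Nonempty).biUnion fun p =>
          ((range R).filter fun u => block S L (I * R + u) = p).image fun u => I * R + u := by
      intro i hi
      obtain ⟨h1, h2⟩ := Finset.mem_filter.mp hi
      obtain ⟨_, h3⟩ := mem_ne.mp h1
      rw [Finset.mem_biUnion]
      have h4 : I * R + i % R = i := by
        rw [← h2, mul_comm]
        exact Nat.div_add_mod i R
      refine ⟨block S L i, Finset.mem_filter.mpr ⟨hblock i, h3⟩, ?_⟩
      rw [Finset.mem_image]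
      refine ⟨i % R, Finset.mem_filter.mpr ⟨Finset.mem_range.mpr (Nat.mod_lt i hR), ?_⟩, h4⟩
      rw [h4]
    calc _ ≤ _ := Finset.card_le_card hcover
      _ ≤ ∑ p ∈ F.filter fun p => p.Nonempty,
          (((range R).filter fun u => block S L (I * R + u) = p).image
            fun u => I * R + u).card := Finset.card_biUnion_le
      _ ≤ ∑ p ∈ F.filter fun p => p.Nonempty, rothNumberNat R := by
          apply Finset.sum_le_sum
          intro p hp
          refine Finset.card_image_le.trans ?_
          apply roth_bound hS (Finset.mem_filter.mp hp).2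
          intro u hu
          obtain ⟨h1, h2⟩ := Finset.mem_filter.mp hu
          exact ⟨Finset.mem_range.mp h1, h2⟩
      _ = (F.filter fun p => p.Nonempty).card * rothNumberNat R := by
          rw [Finset.sum_const, smul_eq_mul]
      _ ≤ m * rothNumberNat R :=
          Nat.mul_le_mul_right _ ((Finset.card_filter_le _ _).trans hF)
  have hc := Finset.card_le_mul_card_image_of_maps_to hmap (m * rothNumberNat R) hfib
  calc 2 * (ne S L (N * R)).card ≤ 2 * (m * rothNumberNat R * (ne S (L * R) N).card) :=
        Nat.mul_le_mul_left 2 hc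
    _ = 2 * (m * rothNumberNat R) * (ne S (L * R) N).card := by ring
    _ ≤ R * (ne S (L * R) N).card := Nat.mul_le_mul_right _ hroth
    _ = _ := mul_comm _ _

end Pool.Agent.Helper74.SB
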